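import Pool.Agent.Helper38.WY.Goals4
import Pool.Agent.Helper38.FD.Split
import Pool.Agent.Helper13.RL.GOO2
import Pool.Agent.Helper13.RL.GOO3
import Pool.Agent.Helper30.RL.SQR
import Pool.Agent.Helper48.PPB.GL1A
import Pool.Agent.Helper3.PPB.BTOR

/-!
# Project WY (MP_fc6b1e_nt): packet Z_GL1, a trivial twisted Selmer group implies the statement,
`χ₀ ≠ 1`
-/

set_option autoImplicit false

namespace Pool.Agent.Helper93.WY

open NumberField Polynomial Module IsDedekindDomain Pool.Agent.Helper51.SigLeo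
open Pool.Agent.Helper51.RP Pool.Agent.Helper42.RD Pool.Agent.Helper11.LE Pool.Agent.Helper11.PP
open Pool.Agent.Helper77.RL (Sqr)
open Pool.Agent.Helper38.FD
open Pool.Agent.Helper42.PW
open Pool.Agent.Helper48.PPB (finrank_sup_cut)
open Pool.Agent.Helper38.WY

/-- The automorphisms of `M'/M` extend to `M₂`, fix `ε` and change `α` by a `p`-th power. -/
theorem stb (p : ℕ) [hp : Fact p.Prime] (n : ℕ) (K M M₁ L M' M₂ : Type) [Field K] [NumberField K]
    [Field M] [Field M₁] [Field L] [Field M'] [Field M₂] [NumberField M'] [NumberField M₂]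
    [Algebra K M] [Algebra K M₁] [Algebra K L] [Algebra K M'] [Algebra K M₂]
    [Algebra M M'] [Algebra L M'] [Algebra M M₁] [Algebra M₁ M₂] [Algebra L M₂]
    [Algebra M' M₂] [Algebra M M₂] [IsScalarTower K M M']
    [IsScalarTower K L M'] [IsScalarTower K M₁ M₂] [IsScalarTower K L M₂]
    [IsScalarTower K M' M₂] [IsScalarTower M M₁ M₂]
    [IsScalarTower M M' M₂] [IsScalarTower L M' M₂]
    (hS : Sqr p n K M L M') (hS₁ : Sqr p n K M₁ L M₂)
    (ε : M₁) (α : M₂) (hε : IsPrimitiveRoot ε p) (hα : OmType p K (algebraMap M₁ M₂ ε) α)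
    (g : M' ≃ₐ[M] M') : ∃ (f : M₂ ≃+* M₂) (c : M₂),
      (∀ x : M', f (algebraMap M' M₂ x) = algebraMap M' M₂ (g x)) ∧
      f (algebraMap M₁ M₂ ε) = algebraMap M₁ M₂ ε ∧ f α = α * c ^ p := by
  have := hS.galL
  have := hS.gal
  have hfd : FiniteDimensional K M₂ := inferInstance
  let gK : M' ≃ₐ[K] M' := g.restrictScalars K
  let g₀ : L ≃ₐ[K] L := gK.restrictNormal L
  obtain ⟨-, -, -, -, hf⟩ := Pool.Agent.Helper30.RL.l_sqr p n K M₁ L M₂ hS₁
  obtain ⟨f, hf1, hf2⟩ := hf 1 g₀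
  let f₁ : M' ≃ₐ[K] M' := f.restrictNormal M'
  have hf₁ : ∀ x : M', algebraMap M' M₂ (f₁ x) = f (algebraMap M' M₂ x) := fun x =>
    AlgEquiv.restrictNormal_commutes f M' x
  have hg₀ : ∀ y : L, algebraMap L M' (g₀ y) = g (algebraMap L M' y) := fun y =>
    AlgEquiv.restrictNormal_commutes gK L y
  have hM : ∀ x : M, f₁ (algebraMap M M' x) = algebraMap M M' x := by
    intro x
    apply (algebraMap M' M₂).injective
    rw [hf₁, ← IsScalarTower.algebraMap_apply M M' M₂, IsScalarTower.algebraMap_apply M M₁ M₂,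
      hf1]
    rfl
  have hL : ∀ y : L, f₁ (algebraMap L M' y) = g (algebraMap L M' y) := by
    intro y
    apply (algebraMap M' M₂).injective
    rw [hf₁, ← IsScalarTower.algebraMap_apply L M' M₂, hf2, ← hg₀,
      ← IsScalarTower.algebraMap_apply L M' M₂]
  have h1 : gK⁻¹ * f₁ = 1 := by
    refine hS.gen _ (fun x => ?_) fun y => ?_
    · rw [AlgEquiv.mul_apply, hM]
      show gK.symm (algebraMap M M' x) = _
      rw [AlgEquiv.symm_apply_eq]
      exact (g.commutes x).symm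
    · rw [AlgEquiv.mul_apply, hL]
      show gK.symm (gK (algebraMap L M' y)) = _
      exact gK.symm_apply_apply _
  have h2 : f₁ = gK := (inv_mul_eq_one.1 h1).symm
  obtain ⟨i, c, hi, hc⟩ := hα f
  have hτε : f (algebraMap M₁ M₂ ε) = algebraMap M₁ M₂ ε := by
    rw [hf1]
    rfl
  have hε' : IsPrimitiveRoot (algebraMap M₁ M₂ ε) p :=
    hε.map_of_injective (algebraMap M₁ M₂).injective
  rw [hτε] at hi
  obtain ⟨j, rfl⟩ : ∃ j, i = 1 + p * j := by
    rcases Nat.eq_zero_or_pos i with h0 | h0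
    · exfalso
      rw [h0, pow_zero] at hi
      exact hε'.ne_one hp.out.one_lt hi
    · have h3 : (algebraMap M₁ M₂ ε) ^ (i - 1) = 1 := by
        have h4 : (algebraMap M₁ M₂ ε) * (algebraMap M₁ M₂ ε) ^ (i - 1) = algebraMap M₁ M₂ ε := by
          rw [← pow_succ', Nat.sub_add_cancel h0]
          exact hi.symm
        exact mul_left_cancel₀ (hε'.ne_zero hp.out.ne_zero) (by rw [h4, mul_one])
      obtain ⟨j, hj⟩ := hε'.dvd_of_pow_eq_one _ h3
      exact ⟨j, by omega⟩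
  refine ⟨f.toRingEquiv, α ^ j * c, fun x => ?_, hτε, ?_⟩
  · show f (algebraMap M' M₂ x) = _
    rw [← hf₁, h2]
    rfl
  · show f α = _
    rw [hc, mul_pow, ← pow_mul, mul_comm j p, ← mul_assoc, ← pow_succ', add_comm 1]

/-- The field cut out by `ψ₁` is finite: `ψ₁` is trivial on the automorphisms which fix `M₂` and `s`. -/
theorem cut_fin {p : ℕ} [hpF : Fact p.Prime] {K : Type} [Field K] [NumberField K]
    {J M₂ : IntermediateField K (AlgebraicClosure K)} [FiniteDimensional K M₂] (hJM : J ≤ M₂)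
    (ψ₁ : Chr K (AlgebraicClosure K) ℂ_[p]) (hp : ∀ g, (∀ x ∈ J, g x = x) → ψ₁ g ^ p = 1)
    (s : AlgebraicClosure K) (hs : s ∉ M₂)
    (hfix : ∀ g : AlgebraicClosure K ≃ₐ[K] AlgebraicClosure K, (∀ x ∈ M₂, g x = x) → ψ₁ g = 1 →
        g s = s) :
    ∃ F₁ : IntermediateField K (AlgebraicClosure K), FiniteDimensional K F₁ ∧ CutsOut ψ₁ F₁ := by
  have hprime : p.Prime := hpF.out
  have hgΩ : IsGalois K (AlgebraicClosure K) := inferInstance
  obtain ⟨h, hh, hhs⟩ : ∃ h : AlgebraicClosure K ≃ₐ[K] AlgebraicClosure K,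
      (∀ x ∈ M₂, h x = x) ∧ h s ≠ s := by
    by_contra hno
    push Not at hno
    apply hs
    rw [← InfiniteGalois.fixedField_fixingSubgroup M₂]
    rintro ⟨g, hg⟩
    exact hno g ((IntermediateField.mem_fixingSubgroup_iff _ _).1 hg)
  have hψh : ψ₁ h ≠ 1 := fun h1 => hhs (hfix h hh h1)
  have hψh2 : ψ₁ h ^ p = 1 := hp h fun x hx => hh x (hJM hx)
  have hfs : FiniteDimensional K (IntermediateField.adjoin K {s}) :=
    IntermediateField.adjoin.finiteDimensional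
      (Algebra.IsIntegral.isIntegral (R := K) s)
  refine exists_cutsOut ψ₁ (M₂ ⊔ IntermediateField.adjoin K {s}) fun g hg => ?_
  by_contra hne
  have hgM : ∀ x ∈ M₂, g x = x := fun x hx => hg x
    ((le_sup_left : M₂ ≤ M₂ ⊔ IntermediateField.adjoin K {s}) hx)
  have hgs : g s = s := hg s
    ((le_sup_right : IntermediateField.adjoin K {s} ≤ M₂ ⊔ IntermediateField.adjoin K {s})
      (IntermediateField.subset_adjoin K {s} rfl))
  have hgJ : ∀ x ∈ J, g x = x := fun x hx => hgM x (hJM hx)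
  have hgp : ψ₁ g ^ p = 1 := hp g hgJ
  have hord : orderOf (ψ₁ g) = p := orderOf_eq_prime hgp hne
  have hprim : IsPrimitiveRoot ((ψ₁ g : ℂ_[p]ˣ) : ℂ_[p]) p := by
    have := IsPrimitiveRoot.orderOf (ψ₁ g)
    rw [hord] at this
    exact IsPrimitiveRoot.coe_units_iff.2 this
  have hne0 : NeZero p := ⟨hprime.ne_zero⟩
  obtain ⟨i, -, hi⟩ := hprim.eq_pow_of_pow_eq_one (ξ := ((ψ₁ h : ℂ_[p]ˣ) : ℂ_[p])) (by
    rw [← Units.val_pow_eq_pow_val, hψh2, Units.val_one])
  have hi2 : ψ₁ g ^ i = ψ₁ h := by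
    apply Units.ext
    rw [Units.val_pow_eq_pow_val]
    exact hi
  have hpow : ∀ x, g x = x → ∀ n : ℕ, (g ^ n) x = x := by
    intro x hx n
    induction n with
    | zero => rfl
    | succ n ih => rw [pow_succ, AlgEquiv.mul_apply, hx, ih]
  have hinv : ∀ x, g x = x → (g ^ i)⁻¹ x = x := by
    intro x hx
    have h1 := hpow x hx i
    calc (g ^ i)⁻¹ x = (g ^ i)⁻¹ ((g ^ i) x) := by rw [h1]
      _ = ((g ^ i)⁻¹ * g ^ i) x := rfl
      _ = x := by rw [inv_mul_cancel]; rfl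
  have h2 := hfix (h * (g ^ i)⁻¹) (fun x hx => by
    rw [AlgEquiv.mul_apply, hinv x (hgM x hx), hh x hx]) (by
    rw [map_mul, map_inv, map_pow, hi2, mul_inv_cancel])
  rw [AlgEquiv.mul_apply, hinv s hgs] at h2
  exact hhs h2

/-- **Z_GL1**. -/
theorem z_gl1 (h1 : Z_TRV) (h3 : Z_CO1) : Z_GL1 := by
  intro p hpf K _ _ ιinf ιp Lg S hcl M M₁ J M₂ _ _ _ _ _ _ _ _ hMM₂ hMM₁ hM₂ hcop hJ χM hχM
    δ Φ P hδ hPhi hTor χ₀ ψ₁ hχ₀ hψl hψp hgE ε α hε hεM₁ hOm hnp hgen hSel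
  have hp := hpf.out
  obtain ⟨n, hn⟩ := hJ
  have hfM : FiniteDimensional K M := FiniteDimensional.right ℚ K M
  have hfM₁ : FiniteDimensional K M₁ := FiniteDimensional.right ℚ K M₁
  have hfJ : FiniteDimensional K J := FiniteDimensional.right ℚ K J
  have hfM₂ : FiniteDimensional K M₂ := FiniteDimensional.right ℚ K M₂
  have hgΩ : IsGalois K (AlgebraicClosure K) := inferInstance
  have hM₁M₂ : M₁ ≤ M₂ := by rw [hM₂]; exact le_sup_left
  have hJM₂ : J ≤ M₂ := by rw [hM₂]; exact le_sup_right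
  -- the element
  obtain ⟨s, hs⟩ := IsAlgClosed.exists_pow_nat_eq (((α : M₂) : AlgebraicClosure K)) hp.pos
  have hsM₂ : s ∉ M₂ := by
    intro hmem
    have e1 : (⟨_, hmem⟩ : M₂) ^ p = (α : M₂) := Subtype.ext hs
    have e2 : (⟨_, hmem⟩ : M₂) ≠ 0 := by
      intro h0
      rw [h0, zero_pow hp.ne_zero] at e1
      exact α.ne_zero e1.symm
    exact hnp ⟨Units.mk0 _ e2, Units.ext (by
      rw [Units.val_pow_eq_pow_val, Units.val_mk0, e1])⟩
  have hgen' : ∀ g : AlgebraicClosure K ≃ₐ[K] AlgebraicClosure K, (∀ x ∈ M₂, g x = x) →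
      ψ₁ g = 1 → g s = s := hgen s hs
  -- the fields
  obtain ⟨F₁, hfF₁, hF₁c⟩ := cut_fin hJM₂ ψ₁ hψp s hsM₂ hgen'
  have hgF₁ : IsGalois K F₁ := isGalois_of_cutsOut hF₁c
  obtain ⟨F, hF⟩ : ∃ F : IntermediateField K (AlgebraicClosure K), F = J ⊔ F₁ := ⟨_, rfl⟩
  have hJF : J ≤ F := by rw [hF]; exact le_sup_left
  have hF₁F : F₁ ≤ F := by rw [hF]; exact le_sup_right
  have hgF : IsGalois K F := by rw [hF]; infer_instance
  have hfF : FiniteDimensional K F := by rw [hF]; infer_instance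
  have hnfF : NumberField F := NumberField.of_module_finite K F
  have hdF : finrank K F = p ^ (n + 1) := by
    rw [hF]
    exact finrank_sup_cut hp hn ψ₁ hF₁c hψp hgE
  obtain ⟨M', hM'⟩ : ∃ M' : IntermediateField K (AlgebraicClosure K), M' = M ⊔ J := ⟨_, rfl⟩
  have hMM' : M ≤ M' := by rw [hM']; exact le_sup_left
  have hJM' : J ≤ M' := by rw [hM']; exact le_sup_right
  have hM'M₂ : M' ≤ M₂ := by rw [hM']; exact sup_le (hMM₁.trans hM₁M₂) hJM₂
  have hfM' : FiniteDimensional K M' := by rw [hM']; infer_instance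
  have hgM' : IsGalois K M' := by rw [hM']; infer_instance
  have hgM₂ : IsGalois K M₂ := by rw [hM₂]; infer_instance
  have hnfM' : NumberField M' := NumberField.of_module_finite K M'
  -- algebras
  let _ : Algebra M M₁ := (IntermediateField.inclusion hMM₁).toRingHom.toAlgebra
  let _ : Algebra M₁ M₂ := (IntermediateField.inclusion hM₁M₂).toRingHom.toAlgebra
  let _ : Algebra M M' := (IntermediateField.inclusion hMM').toRingHom.toAlgebra
  let _ : Algebra J M' := (IntermediateField.inclusion hJM').toRingHom.toAlgebra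
  let _ : Algebra J M₂ := (IntermediateField.inclusion hJM₂).toRingHom.toAlgebra
  let _ : Algebra M' M₂ := (IntermediateField.inclusion hM'M₂).toRingHom.toAlgebra
  have tKMM₂ : IsScalarTower K M M₂ := IsScalarTower.of_algebraMap_eq fun x ↦ by
    apply Subtype.ext
    rw [hMM₂]
    rfl
  have tKMM' : IsScalarTower K M M' := IsScalarTower.of_algebraMap_eq fun x ↦ rfl
  have tKJM' : IsScalarTower K J M' := IsScalarTower.of_algebraMap_eq fun x ↦ rfl
  have tKM₁M₂ : IsScalarTower K M₁ M₂ := IsScalarTower.of_algebraMap_eq fun x ↦ rfl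
  have tKJM₂ : IsScalarTower K J M₂ := IsScalarTower.of_algebraMap_eq fun x ↦ rfl
  have tKM'M₂ : IsScalarTower K M' M₂ := IsScalarTower.of_algebraMap_eq fun x ↦ rfl
  have tMM₁M₂ : IsScalarTower M M₁ M₂ := IsScalarTower.of_algebraMap_eq fun x ↦
    Subtype.ext (hMM₂ x)
  have tMM'M₂ : IsScalarTower M M' M₂ := IsScalarTower.of_algebraMap_eq fun x ↦
    Subtype.ext (hMM₂ x)
  have tJM'M₂ : IsScalarTower J M' M₂ := IsScalarTower.of_algebraMap_eq fun x ↦ rfl
  -- the squares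
  have hcM : (finrank K M).Coprime p :=
    hcop.coprime_dvd_left (IntermediateField.finrank_dvd_of_le_right hMM₁)
  have hq1 : Sqr p n K M J M' :=
    Pool.Agent.Helper13.RL.sqr_sup' hM' (fun x ↦ rfl) (fun x ↦ rfl) inferInstance inferInstance
      hcM hn
  have hq2 : Sqr p n K M₁ J M₂ :=
    Pool.Agent.Helper13.RL.sqr_sup' hM₂ (fun x ↦ rfl) (fun x ↦ rfl) inferInstance inferInstance
      hcop hn
  obtain ⟨r1, r2, r3, r4, r5⟩ := Pool.Agent.Helper30.RL.l_sqr p n K M J M' hq1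
  obtain ⟨s1, s2, s3, s4, -⟩ := Pool.Agent.Helper30.RL.l_sqr p n K M₁ J M₂ hq2
  have hcN : (finrank M' M₂).Coprime p := by
    have e1 : finrank J M' * finrank M' M₂ = finrank J M₂ := Module.finrank_mul_finrank J M' M₂
    rw [s2] at e1
    exact hcop.coprime_dvd_left (Dvd.intro_left _ e1)
  have hgM'M₂ : IsGalois M' M₂ := IsGalois.tower_top_of_isGalois K M' M₂
  -- the automorphism
  obtain ⟨f, hf1, hf2⟩ := r5 δ 1
  obtain ⟨δL, hδL⟩ : ∃ δL : M' ≃ₐ[J] M', ∀ x, δL x = f x :=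
    ⟨AlgEquiv.ofRingEquiv (f := (f : M' ≃+* M')) fun y ↦ hf2 y, fun x ↦ rfl⟩
  have hδL' : ∀ x : M, δL (algebraMap M M' x) = algebraMap M M' (δ x) := fun x ↦ by
    rw [hδL, hf1]
  have hTorL : TorOK P δL := Pool.Agent.Helper3.PPB.b_tor p K M J M' n r1 δ δL P hδL' hTor
  have hδm : δ ^ finrank K M = 1 := by rw [← hδ, pow_orderOf_eq_one]
  -- the Selmer group at the level `M'`
  obtain ⟨ε₁, hε₁⟩ : ∃ ε₁ : M₁, algebraMap M₁ M₂ ε₁ = ε := ⟨⟨ε, hεM₁⟩, rfl⟩
  have hε₁p : IsPrimitiveRoot ε₁ p := by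
    rw [← hε₁] at hε
    exact IsPrimitiveRoot.of_map_of_injective (f := algebraMap M₁ M₂) hε (RingHom.injective _)
  have hst := stb p n K M M₁ J M' M₂ hq1 hq2 ε₁ (α : M₂) hε₁p (by rw [hε₁]; exact hOm)
  rw [hε₁] at hst
  have hSelN := h1 p n (finrank K M) K M J M' M₂ hq1 δ δL P hPhi.irr hδm hδL' hTorL
    (TSet ιinf ιp S) ε (α : M₂) hε α.ne_zero hst hSel
  -- the characters
  have hψ₁F : ∀ g : AlgebraicClosure K ≃ₐ[K] AlgebraicClosure K, (∀ x ∈ F, g x = x) → ψ₁ g = 1 :=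
    fun g hg ↦ (hF₁c g).2 fun x hx ↦ hg x (hF₁F hx)
  obtain ⟨η, hη⟩ := exists_desc (χ := ψ₁) (H := F) hψ₁F
  obtain ⟨H, fH, hH⟩ := exists_cutsOut (χ₀ * ψ₁) (M ⊔ F) (by
    intro g hg
    have a1 : χ₀ g = 1 := by
      rw [hχ₀ g, Pool.Agent.Helper13.RL.res_one_iff.2 fun x hx ↦
        hg x ((le_sup_left : M ≤ M ⊔ F) hx), map_one]
    have a2 : ψ₁ g = 1 := hψ₁F g fun x hx ↦ hg x ((le_sup_right : F ≤ M ⊔ F) hx)
    rw [MonoidHom.mul_apply, a1, a2, one_mul])
  have jH := isGalois_of_cutsOut hH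
  obtain ⟨χ', hinj, hχ'⟩ := exists_faithful hH
  have r : ∀ (g : AlgebraicClosure K ≃ₐ[K] AlgebraicClosure K)
      (X : IntermediateField K (AlgebraicClosure K)) [IsGalois K X],
      Restricts (algebraMap X (AlgebraicClosure K)) g (AlgEquiv.restrictNormalHom X g) :=
    fun g X _ x ↦ (AlgEquiv.restrictNormal_commutes g X x).symm
  refine ⟨H, fH, hH, χ', hχ', ?_⟩
  refine h3 p K ιinf ιp Lg S hcl M χM hχM hcM δ Φ P hδ hPhi hTor n J F M' M₂
    (fun x ↦ rfl) (fun x ↦ rfl) (fun x ↦ rfl) hJF hn hdF hM' hgM'M₂ hcN δL hδL'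
    ε (α : M₂) hε α.ne_zero s hs hsM₂ ?_ hSelN H χ' η hinj ?_ ?_
  · intro g g1 g2
    exact hgen' g g2 (hψ₁F g g1)
  · obtain ⟨g, hg, hg1⟩ := hgE
    refine ⟨AlgEquiv.restrictNormalHom F g, fun x hx ↦ ?_, ?_⟩
    · apply Subtype.ext
      rw [AlgEquiv.restrictNormalHom_apply]
      exact hg _ hx
    · rw [← hη g _ (r g F)]
      exact hg1
  · intro g
    rw [← hχ' g _ (r g H), ← hη g _ (r g F), ← hχ₀ g, MonoidHom.mul_apply]

end Pool.Agent.Helper93.WY
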